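import Pool.Agent.W783.Perc.Stmts

set_option autoImplicit false

open MeasureTheory Set

namespace Pool.Agent.W374.PCEnt

open Pool.Agent.W783.PC

open scoped Classical in
/-- the colouring lemma -/
theorem colouring {α β : Type} (A : Finset α) (P : Finset β) (f g : β → α)
    (hf : ∀ b ∈ P, f b ∈ A) (hfg : ∀ b ∈ P, f b ≠ g b) :
    ∃ S : Finset α, P.card ≤ 2 * (P.filter (fun b => ¬ (f b ∈ S ↔ g b ∈ S))).card := by
  by_contra hcon0
  have hcon : ∀ S : Finset α, 2 * (P.filter (fun b => ¬ (f b ∈ S ↔ g b ∈ S))).card < P.card :=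
    fun S => not_le.1 (fun h => hcon0 ⟨S, h⟩)
  have h1 : ∀ b ∈ P, 2 * (A.powerset.filter (fun S => ¬ (f b ∈ S ↔ g b ∈ S))).card = 2 ^ A.card := by
    intro b hb
    have h2 : (A.powerset.filter (fun S => ¬ (f b ∈ S ↔ g b ∈ S))).card
        = (A.powerset.filter (fun S => (f b ∈ S ↔ g b ∈ S))).card := by
      have hne := hfg b hb
      refine Finset.card_nbij' (fun S => symmDiff S {f b}) (fun S => symmDiff S {f b}) ?_ ?_ ?_ ?_
      · intro S hS
        simp only [Finset.coe_filter, Finset.mem_powerset, mem_ofPred_eq] at hS ⊢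
        refine ⟨?_, ?_⟩
        · intro x hx
          rw [Finset.mem_symmDiff] at hx
          rcases hx with hx | hx
          · exact hS.1 hx.1
          · rw [Finset.mem_singleton.1 hx.1]; exact hf b hb
        · simp only [Finset.mem_symmDiff, Finset.mem_singleton, hne.symm, not_true, not_false_iff,
            and_true, and_false, false_and, or_false, true_and, false_or]
          tauto
      · intro S hS
        simp only [Finset.coe_filter, Finset.mem_powerset, mem_ofPred_eq] at hS ⊢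
        refine ⟨?_, ?_⟩
        · intro x hx
          rw [Finset.mem_symmDiff] at hx
          rcases hx with hx | hx
          · exact hS.1 hx.1
          · rw [Finset.mem_singleton.1 hx.1]; exact hf b hb
        · simp only [Finset.mem_symmDiff, Finset.mem_singleton, hne.symm, not_true, not_false_iff,
            and_true, and_false, false_and, or_false, true_and, false_or]
          tauto
      · intro S _
        exact symmDiff_symmDiff_cancel_right _ _
      · intro S _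
        exact symmDiff_symmDiff_cancel_right _ _
    have h3 := Finset.card_filter_add_card_filter_not (s := A.powerset)
      (fun S => (f b ∈ S ↔ g b ∈ S))
    rw [Finset.card_powerset] at h3
    omega
  have h4 : ∑ S ∈ A.powerset, 2 * (P.filter (fun b => ¬ (f b ∈ S ↔ g b ∈ S))).card
      = P.card * 2 ^ A.card := by
    have : ∑ S ∈ A.powerset, (P.filter (fun b => ¬ (f b ∈ S ↔ g b ∈ S))).card
        = ∑ b ∈ P, (A.powerset.filter (fun S => ¬ (f b ∈ S ↔ g b ∈ S))).card := by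
      simp only [Finset.card_filter]
      exact Finset.sum_comm
    rw [← Finset.mul_sum, this, Finset.mul_sum, Finset.sum_congr rfl h1, Finset.sum_const,
      smul_eq_mul]
  have h5 : ∑ S ∈ A.powerset, 2 * (P.filter (fun b => ¬ (f b ∈ S ↔ g b ∈ S))).card
      < ∑ S ∈ A.powerset, P.card :=
    Finset.sum_lt_sum_of_nonempty ⟨∅, Finset.empty_mem_powerset _⟩ (fun S _ => hcon S)
  rw [h4, Finset.sum_const, Finset.card_powerset, smul_eq_mul, mul_comm] at h5
  exact lt_irrefl _ h5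

variable {n : ℕ}

open scoped Classical in
/-- the cluster of `x` inside the finite region `B` -/
noncomputable def kc (E : Set (Sym2 (V n))) (ω : Cfg n) (B : Finset (V n)) (x : V n) :
    Finset (V n) :=
  B.filter (fun y => (G E ω (B : Set (V n))).Reachable x y)

theorem reach_mem {E : Set (Sym2 (V n))} {ω : Cfg n} {R : Set (V n)} {x y : V n}
    (h : (G E ω R).Reachable x y) (hx : x ∈ R) : y ∈ R := by
  rw [SimpleGraph.reachable_iff_reflTransGen] at h
  induction h with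
  | refl => exact hx
  | tail _ h2 _ => exact h2.2.2.1

theorem cl_eq {E : Set (Sym2 (V n))} {ω : Cfg n} {B : Finset (V n)} {x : V n} (hx : x ∈ B) :
    cl E ω (B : Set (V n)) x = (kc E ω B x : Set (V n)) := by
  ext y
  unfold cl kc
  rw [Finset.coe_filter]
  constructor
  · intro h
    exact ⟨reach_mem h hx, h⟩
  · intro h
    exact h.2

theorem self_mem {E : Set (Sym2 (V n))} {ω : Cfg n} {B : Finset (V n)} {x : V n} (hx : x ∈ B) :
    x ∈ kc E ω B x := by
  classical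
  unfold kc
  rw [Finset.mem_filter]
  exact ⟨hx, SimpleGraph.Reachable.refl _⟩

theorem kc_eq_of_mem {E : Set (Sym2 (V n))} {ω : Cfg n} {B : Finset (V n)} {x z : V n}
    (hz : z ∈ kc E ω B x) : kc E ω B z = kc E ω B x := by
  classical
  unfold kc at hz ⊢
  rw [Finset.mem_filter] at hz
  apply Finset.filter_congr
  intro y _
  exact ⟨fun h => hz.2.trans h, fun h => hz.2.symm.trans h⟩

open scoped Classical in
/-- the large clusters inside `B` -/
noncomputable def K1 (E : Set (Sym2 (V n))) (ω : Cfg n) (B : Finset (V n)) (a0 : ℕ) :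
    Finset (Finset (V n)) :=
  (B.image (kc E ω B)).filter (fun K => a0 ≤ K.card)

theorem K1_card (E : Set (Sym2 (V n))) (ω : Cfg n) (B : Finset (V n)) (a0 : ℕ) :
    (K1 E ω B a0).card * a0 ≤ B.card := by
  classical
  have h1 : ∀ K ∈ K1 E ω B a0, ∀ L ∈ K1 E ω B a0, K ≠ L → Disjoint K L := by
    intro K hK L hL hne
    rw [Finset.disjoint_left]
    intro z hzK hzL
    unfold K1 at hK hL
    rw [Finset.mem_filter, Finset.mem_image] at hK hL
    obtain ⟨⟨x, _, rfl⟩, _⟩ := hK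
    obtain ⟨⟨y, _, rfl⟩, _⟩ := hL
    exact hne ((kc_eq_of_mem hzK).symm.trans (kc_eq_of_mem hzL))
  have h2 : ((K1 E ω B a0).biUnion id).card = ∑ K ∈ K1 E ω B a0, K.card :=
    Finset.card_biUnion h1
  have h3 : (K1 E ω B a0).biUnion id ⊆ B := by
    intro z hz
    rw [Finset.mem_biUnion] at hz
    obtain ⟨K, hK, hz⟩ := hz
    unfold K1 at hK
    rw [Finset.mem_filter, Finset.mem_image] at hK
    obtain ⟨⟨x, _, rfl⟩, _⟩ := hK
    unfold kc at hz
    exact (Finset.mem_filter.1 hz).1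
  calc (K1 E ω B a0).card * a0 = ∑ K ∈ K1 E ω B a0, a0 := by rw [Finset.sum_const, smul_eq_mul]
    _ ≤ ∑ K ∈ K1 E ω B a0, K.card := by
        apply Finset.sum_le_sum
        intro K hK
        unfold K1 at hK
        exact (Finset.mem_filter.1 hK).2
    _ = _ := h2.symm
    _ ≤ B.card := Finset.card_le_card h3

open scoped Classical in
/-- all large clusters -/
noncomputable def KK (E : Set (Sym2 (V n))) (ω : Cfg n) (B1 B2 : Finset (V n)) (a0 : ℕ) :
    Finset (Finset (V n)) := K1 E ω B1 a0 ∪ K1 E ω B2 a0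

theorem KK_card (E : Set (Sym2 (V n))) (ω : Cfg n) (B1 B2 : Finset (V n)) (a0 : ℕ) (ha : 1 ≤ a0) :
    (KK E ω B1 B2 a0).card ≤ (B1.card + B2.card) / a0 := by
  classical
  rw [Nat.le_div_iff_mul_le ha]
  have h1 := K1_card E ω B1 a0
  have h2 := K1_card E ω B2 a0
  have h3 : (KK E ω B1 B2 a0).card ≤ (K1 E ω B1 a0).card + (K1 E ω B2 a0).card :=
    Finset.card_union_le _ _
  calc (KK E ω B1 B2 a0).card * a0 ≤ ((K1 E ω B1 a0).card + (K1 E ω B2 a0).card) * a0 :=
        Nat.mul_le_mul_right _ h3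
    _ = (K1 E ω B1 a0).card * a0 + (K1 E ω B2 a0).card * a0 := by ring
    _ ≤ _ := Nat.add_le_add h1 h2

open scoped Classical in
/-- the pairs which are separated by `Q` -/
noncomputable def PQ (E : Set (Sym2 (V n))) (ω : Cfg n) (B1 B2 : Finset (V n)) (a0 : ℕ)
    (P : Finset (V n × V n)) (Q : Finset (Finset (V n))) : Finset (V n × V n) :=
  P.filter (fun q => ω (Sum.inl q.1) = true ∧ ω (Sum.inl q.2) = true ∧
      a0 ≤ (kc E ω B1 q.1).card ∧ a0 ≤ (kc E ω B2 q.2).card ∧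
      ¬ (kc E ω B1 q.1 ∈ Q ↔ kc E ω B2 q.2 ∈ Q))

/-- the event -/
def Ev (E : Set (Sym2 (V n))) (B1 B2 : Finset (V n)) (a0 X : ℕ)
    (P : Finset (V n × V n)) (ω : Cfg n) : Set (Cfg n) :=
  {ω' | ∃ Q ∈ (KK E ω B1 B2 a0).powerset, X ≤ (PQ E ω B1 B2 a0 P Q).card ∧
    ∀ q ∈ PQ E ω B1 B2 a0 P Q, ω' (Sum.inr s(q.1, q.2)) = false}

theorem G_mono {E : Set (Sym2 (V n))} {ω : Cfg n} {R R' : Set (V n)} (h : R ⊆ R') :
    G E ω R ≤ G E ω R' := by
  intro x y hxy
  exact ⟨hxy.1, h hxy.2.1, h hxy.2.2.1, hxy.2.2.2⟩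

open scoped Classical in
/-- deterministic claim -/
theorem claim (E : Set (Sym2 (V n))) (B1 B2 : Finset (V n)) (hB : Disjoint B1 B2) (a0 X : ℕ)
    (P : Finset (V n × V n)) (hP : ∀ q ∈ P, q.1 ∈ B1 ∧ q.2 ∈ B2 ∧ s(q.1, q.2) ∈ E) (ω : Cfg n)
    (h : 2 * X < (P.filter (fun q => ω (Sum.inl q.1) = true ∧ ω (Sum.inl q.2) = true ∧
      a0 ≤ (cl E ω (B1 : Set (V n)) q.1).ncard ∧ a0 ≤ (cl E ω (B2 : Set (V n)) q.2).ncard ∧
      ¬ (G E ω ((B1 : Set (V n)) ∪ B2)).Reachable q.1 q.2)).card) :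
    ω ∈ Ev E B1 B2 a0 X P ω := by
  set P' := P.filter (fun q => ω (Sum.inl q.1) = true ∧ ω (Sum.inl q.2) = true ∧
      a0 ≤ (cl E ω (B1 : Set (V n)) q.1).ncard ∧ a0 ≤ (cl E ω (B2 : Set (V n)) q.2).ncard ∧
      ¬ (G E ω ((B1 : Set (V n)) ∪ B2)).Reachable q.1 q.2) with hP'
  let mk : V n → (G E ω ((B1 : Set (V n)) ∪ B2)).ConnectedComponent :=
    fun v => (G E ω ((B1 : Set (V n)) ∪ B2)).connectedComponentMk v
  have hmk : ∀ x y, mk x = mk y ↔ (G E ω ((B1 : Set (V n)) ∪ B2)).Reachable x y := by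
    intro x y
    exact SimpleGraph.ConnectedComponent.eq
  obtain ⟨S, hS⟩ := colouring (P'.image (fun q => mk q.1)) P' (fun q => mk q.1) (fun q => mk q.2)
    (fun b hb => Finset.mem_image_of_mem _ hb) (by
      intro q hq hc
      rw [hP', Finset.mem_filter] at hq
      exact hq.2.2.2.2.2 ((hmk _ _).1 hc))
  have hm1 : ∀ x ∈ B1, ∀ v ∈ kc E ω B1 x, mk v = mk x := by
    intro x _ v hv
    unfold kc at hv
    rw [Finset.mem_filter] at hv
    exact (hmk _ _).2 ((hv.2.mono (G_mono subset_union_left)).symm)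
  have hm2 : ∀ x ∈ B2, ∀ v ∈ kc E ω B2 x, mk v = mk x := by
    intro x _ v hv
    unfold kc at hv
    rw [Finset.mem_filter] at hv
    exact (hmk _ _).2 ((hv.2.mono (G_mono subset_union_right)).symm)
  let Q := (KK E ω B1 B2 a0).filter (fun K => ∃ v ∈ K, mk v ∈ S)
  have hQ1 : ∀ x ∈ B1, a0 ≤ (kc E ω B1 x).card → (kc E ω B1 x ∈ Q ↔ mk x ∈ S) := by
    intro x hx ha
    constructor
    · intro hh
      rw [Finset.mem_filter] at hh
      obtain ⟨_, v, hv, hvS⟩ := hh
      rwa [hm1 x hx v hv] at hvS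
    · intro hh
      rw [Finset.mem_filter]
      refine ⟨?_, x, self_mem hx, hh⟩
      unfold KK
      rw [Finset.mem_union]
      left
      unfold K1
      rw [Finset.mem_filter]
      exact ⟨Finset.mem_image_of_mem _ hx, ha⟩
  have hQ2 : ∀ x ∈ B2, a0 ≤ (kc E ω B2 x).card → (kc E ω B2 x ∈ Q ↔ mk x ∈ S) := by
    intro x hx ha
    constructor
    · intro hh
      rw [Finset.mem_filter] at hh
      obtain ⟨_, v, hv, hvS⟩ := hh
      rwa [hm2 x hx v hv] at hvS
    · intro hh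
      rw [Finset.mem_filter]
      refine ⟨?_, x, self_mem hx, hh⟩
      unfold KK
      rw [Finset.mem_union]
      right
      unfold K1
      rw [Finset.mem_filter]
      exact ⟨Finset.mem_image_of_mem _ hx, ha⟩
  refine ⟨Q, Finset.mem_powerset.2 (Finset.filter_subset _ _), ?_, ?_⟩
  · have hsub : P'.filter (fun b => ¬ (mk b.1 ∈ S ↔ mk b.2 ∈ S)) ⊆ PQ E ω B1 B2 a0 P Q := by
      intro q hq
      rw [Finset.mem_filter, hP', Finset.mem_filter] at hq
      obtain ⟨⟨hqP, h1, h2, h3, h4, h5⟩, h6⟩ := hq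
      obtain ⟨hb1, hb2, _⟩ := hP q hqP
      rw [cl_eq hb1, ncard_coe_finset] at h3
      rw [cl_eq hb2, ncard_coe_finset] at h4
      unfold PQ
      rw [Finset.mem_filter]
      refine ⟨hqP, h1, h2, h3, h4, ?_⟩
      rw [hQ1 _ hb1 h3, hQ2 _ hb2 h4]
      exact h6
    have := Finset.card_le_card hsub
    have h2 : P'.card ≤ 2 * (P'.filter (fun b => ¬ (mk b.1 ∈ S ↔ mk b.2 ∈ S))).card := hS
    omega
  · intro q hq
    unfold PQ at hq
    rw [Finset.mem_filter] at hq
    obtain ⟨hqP, h1, h2, h3, h4, h5⟩ := hq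
    obtain ⟨hb1, hb2, hE⟩ := hP q hqP
    rw [hQ1 _ hb1 h3, hQ2 _ hb2 h4] at h5
    by_contra hc
    have hc' : ω (Sum.inr s(q.1, q.2)) = true := by simpa using hc
    have hadj : (G E ω ((B1 : Set (V n)) ∪ B2)).Adj q.1 q.2 := by
      refine ⟨?_, Or.inl hb1, Or.inr hb2, hE, h1, h2, hc'⟩
      intro he
      rw [he] at hb1
      exact (Finset.disjoint_left.1 hB hb1) hb2
    have : mk q.1 = mk q.2 := (hmk _ _).2 hadj.reachable
    rw [this] at h5
    exact h5 Iff.rfl

theorem t_entropy (h1 : S_glue) (h2 : S_closedF) (h3 : S_reach_dep) : S_entropy := by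
  intro n r E B1 B2 hB a0 ha w hw X P hP
  classical
  let S : Finset (Ix n) := (B1 ∪ B2).image Sum.inl ∪ (B1.sym2.image Sum.inr ∪ B2.sym2.image Sum.inr)
  have hSi : ∀ x, x ∈ B1 ∨ x ∈ B2 → Sum.inl x ∈ S := by
    intro x hx
    refine Finset.mem_union_left _ (Finset.mem_image_of_mem _ ?_)
    rw [Finset.mem_union]; exact hx
  have hS1 : ∀ c ∈ Int' (B1 : Set (V n)), c ∈ S := by
    rintro c (⟨x, hx, rfl⟩ | ⟨e, he, rfl⟩)
    · exact hSi x (Or.inl hx)
    · refine Finset.mem_union_right _ (Finset.mem_union_left _ (Finset.mem_image_of_mem _ ?_))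
      rw [Finset.mem_sym2_iff]
      exact fun x hx => he x hx
  have hS2 : ∀ c ∈ Int' (B2 : Set (V n)), c ∈ S := by
    rintro c (⟨x, hx, rfl⟩ | ⟨e, he, rfl⟩)
    · exact hSi x (Or.inr hx)
    · refine Finset.mem_union_right _ (Finset.mem_union_right _ (Finset.mem_image_of_mem _ ?_))
      rw [Finset.mem_sym2_iff]
      exact fun x hx => he x hx
  have hSn : ∀ q ∈ P, (Sum.inr s(q.1, q.2) : Ix n) ∉ S := by
    intro q hq hc
    obtain ⟨hb1, hb2, _, _⟩ := hP q hq
    rw [Finset.mem_union, Finset.mem_union, Finset.mem_image, Finset.mem_image,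
      Finset.mem_image] at hc
    rcases hc with ⟨x, _, hx⟩ | ⟨e, he, hx⟩ | ⟨e, he, hx⟩
    · cases hx
    · rw [Sum.inr.inj hx, Finset.mem_sym2_iff] at he
      exact (Finset.disjoint_left.1 hB (he q.2 (Sym2.mem_mk_right _ _))) hb2
    · rw [Sum.inr.inj hx, Finset.mem_sym2_iff] at he
      exact (Finset.disjoint_left.1 hB hb1) (he q.1 (Sym2.mem_mk_left _ _))
  have hkc1 : ∀ ω ω' : Cfg n, (∀ c ∈ S, ω c = ω' c) → kc E ω B1 = kc E ω' B1 := by
    intro ω ω' h
    funext x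
    unfold kc
    apply Finset.filter_congr
    intro y _
    exact h3 n E (B1 : Set (V n)) x y ω ω' (fun c hc => h c (hS1 c hc.1))
  have hkc2 : ∀ ω ω' : Cfg n, (∀ c ∈ S, ω c = ω' c) → kc E ω B2 = kc E ω' B2 := by
    intro ω ω' h
    funext x
    unfold kc
    apply Finset.filter_congr
    intro y _
    exact h3 n E (B2 : Set (V n)) x y ω ω' (fun c hc => h c (hS2 c hc.1))
  have hPQ : ∀ ω ω' : Cfg n, (∀ c ∈ S, ω c = ω' c) → ∀ Q, PQ E ω B1 B2 a0 P Q
      = PQ E ω' B1 B2 a0 P Q := by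
    intro ω ω' h Q
    unfold PQ
    apply Finset.filter_congr
    intro q hq
    obtain ⟨hb1, hb2, _, _⟩ := hP q hq
    rw [hkc1 ω ω' h, hkc2 ω ω' h, h _ (hSi q.1 (Or.inl hb1)), h _ (hSi q.2 (Or.inr hb2))]
  have hKK : ∀ ω ω' : Cfg n, (∀ c ∈ S, ω c = ω' c) → KK E ω B1 B2 a0 = KK E ω' B1 B2 a0 := by
    intro ω ω' h
    unfold KK K1
    rw [hkc1 ω ω' h, hkc2 ω ω' h]
  have hEv : ∀ ω ω' : Cfg n, (∀ c ∈ S, ω c = ω' c) →
      Ev E B1 B2 a0 X P ω = Ev E B1 B2 a0 X P ω' := by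
    intro ω ω' h
    unfold Ev
    rw [hKK ω ω' h]
    ext ω''
    simp only [mem_ofPred_eq, hPQ ω ω' h]
  have hPQP : ∀ ω Q, PQ E ω B1 B2 a0 P Q ⊆ P := fun ω Q => Finset.filter_subset _ _
  have hdep : ∀ ω, DepOn (Ev E B1 B2 a0 X P ω) {c | c ∉ S} := by
    intro ω ω1 ω2 h
    unfold Ev
    simp only [mem_ofPred_eq]
    have hh : ∀ Q, (∀ q ∈ PQ E ω B1 B2 a0 P Q, ω1 (Sum.inr s(q.1, q.2)) = false) ↔
        (∀ q ∈ PQ E ω B1 B2 a0 P Q, ω2 (Sum.inr s(q.1, q.2)) = false) := by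
      intro Q
      apply forall₂_congr
      intro q hq
      rw [h _ (hSn q (hPQP ω Q hq))]
    simp only [hh]
  have hms : ∀ (T : Finset (V n × V n)), MeasurableSet {ω' : Cfg n | ∀ q ∈ T,
      ω' (Sum.inr s(q.1, q.2)) = false} := by
    intro T
    have : {ω' : Cfg n | ∀ q ∈ T, ω' (Sum.inr s(q.1, q.2)) = false}
        = ⋂ q ∈ T, (fun ω' : Cfg n => ω' (Sum.inr s(q.1, q.2))) ⁻¹' {false} := by
      ext ω'
      simp only [mem_ofPred_eq, mem_iInter, mem_preimage, mem_singleton_iff]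
    rw [this]
    exact Finset.measurableSet_biInter _ (fun q _ => measurable_pi_apply _ (measurableSet_singleton _))
  have hEvU : ∀ ω, Ev E B1 B2 a0 X P ω = ⋃ Q ∈ ((KK E ω B1 B2 a0).powerset.filter
      (fun Q => X ≤ (PQ E ω B1 B2 a0 P Q).card)),
      {ω' : Cfg n | ∀ q ∈ PQ E ω B1 B2 a0 P Q, ω' (Sum.inr s(q.1, q.2)) = false} := by
    intro ω
    ext ω'
    unfold Ev
    simp only [mem_ofPred_eq, mem_iUnion, Finset.mem_filter, exists_prop, and_assoc]
  have hmeas : ∀ ω, MeasurableSet (Ev E B1 B2 a0 X P ω) := by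
    intro ω
    rw [hEvU]
    exact Finset.measurableSet_biUnion _ (fun Q _ => hms _)
  have hbd : ∀ ω, (pm r) (Ev E B1 B2 a0 X P ω) ≤
      ENNReal.ofReal (2 ^ ((B1.card + B2.card) / a0) * Real.exp (-(w * X))) := by
    intro ω
    rw [hEvU]
    have hone : ∀ Q ∈ ((KK E ω B1 B2 a0).powerset.filter
      (fun Q => X ≤ (PQ E ω B1 B2 a0 P Q).card)), (pm r) {ω' : Cfg n | ∀ q ∈ PQ E ω B1 B2 a0 P Q,
        ω' (Sum.inr s(q.1, q.2)) = false} ≤ ENNReal.ofReal (Real.exp (-(w * X))) := by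
      intro Q hQ
      rw [Finset.mem_filter] at hQ
      have hset : {ω' : Cfg n | ∀ q ∈ PQ E ω B1 B2 a0 P Q, ω' (Sum.inr s(q.1, q.2)) = false}
          = {ω' : Cfg n | ∀ c ∈ (PQ E ω B1 B2 a0 P Q).image
            (fun q => (Sum.inr s(q.1, q.2) : Ix n)), ω' c = false} := by
        ext ω'
        simp only [mem_ofPred_eq, Finset.forall_mem_image]
      have hinj : ((PQ E ω B1 B2 a0 P Q).image
            (fun q => (Sum.inr s(q.1, q.2) : Ix n))).card = (PQ E ω B1 B2 a0 P Q).card := by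
        apply Finset.card_image_of_injOn
        intro q hq q' hq' he
        obtain ⟨hb1, hb2, _, _⟩ := hP q (hPQP ω Q hq)
        obtain ⟨hb1', hb2', _, _⟩ := hP q' (hPQP ω Q hq')
        have he' := Sum.inr.inj he
        rw [Sym2.eq_iff] at he'
        rcases he' with ⟨e1, e2⟩ | ⟨e1, e2⟩
        · exact Prod.ext e1 e2
        · rw [e1] at hb1
          exact absurd hb2' (Finset.disjoint_left.1 hB hb1)
      have := h2 (Ix n) r ((PQ E ω B1 B2 a0 P Q).image
            (fun q => (Sum.inr s(q.1, q.2) : Ix n))) w (by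
          intro c hc
          rw [Finset.mem_image] at hc
          obtain ⟨q, hq, rfl⟩ := hc
          exact (hP q (hPQP ω Q hq)).2.2.2)
      rw [hset]
      rw [hinj] at this
      have h5 : (pm r).real {ω' : Cfg n | ∀ c ∈ (PQ E ω B1 B2 a0 P Q).image
            (fun q => (Sum.inr s(q.1, q.2) : Ix n)), ω' c = false} ≤ Real.exp (-(w * X)) := by
        refine this.trans (Real.exp_le_exp.2 ?_)
        have : w * (X : ℝ) ≤ w * ((PQ E ω B1 B2 a0 P Q).card : ℝ) :=
          mul_le_mul_of_nonneg_left (by exact_mod_cast hQ.2) hw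
        linarith
      rw [← ENNReal.ofReal_toReal (measure_ne_top (pm r) _)]
      exact ENNReal.ofReal_le_ofReal h5
    refine (measure_biUnion_finset_le _ _).trans ((Finset.sum_le_sum hone).trans ?_)
    rw [Finset.sum_const, nsmul_eq_mul, ENNReal.ofReal_mul (by positivity)]
    gcongr
    have hc : (((KK E ω B1 B2 a0).powerset.filter
      (fun Q => X ≤ (PQ E ω B1 B2 a0 P Q).card))).card ≤ 2 ^ ((B1.card + B2.card) / a0) := by
      refine (Finset.card_filter_le _ _).trans ?_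
      rw [Finset.card_powerset]
      exact Nat.pow_le_pow_right (by norm_num) (KK_card E ω B1 B2 a0 ha)
    have h6 : ENNReal.ofReal ((2 : ℝ) ^ ((B1.card + B2.card) / a0))
        = ((2 ^ ((B1.card + B2.card) / a0) : ℕ) : ENNReal) := by
      rw [← ENNReal.ofReal_natCast]
      push_cast
      rfl
    rw [h6]
    exact_mod_cast hc
  obtain ⟨_, hg⟩ := h1 (Ix n) r S (Ev E B1 B2 a0 X P) hEv hdep hmeas
  have hfin : (pm r) {ω | ω ∈ Ev E B1 B2 a0 X P ω} ≤
      ENNReal.ofReal (2 ^ ((B1.card + B2.card) / a0) * Real.exp (-(w * X))) := by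
    rw [hg]
    refine (lintegral_mono hbd).trans ?_
    rw [lintegral_const, measure_univ, mul_one]
  have hsub : {ω | 2 * X < (P.filter (fun q => ω (Sum.inl q.1) = true ∧ ω (Sum.inl q.2) = true ∧
      a0 ≤ (cl E ω (B1 : Set (V n)) q.1).ncard ∧ a0 ≤ (cl E ω (B2 : Set (V n)) q.2).ncard ∧
      ¬ (G E ω ((B1 : Set (V n)) ∪ B2)).Reachable q.1 q.2)).card}
      ⊆ {ω | ω ∈ Ev E B1 B2 a0 X P ω} := by
    intro ω hω
    exact claim E B1 B2 hB a0 X P (fun q hq => ⟨(hP q hq).1, (hP q hq).2.1, (hP q hq).2.2.1⟩) ω hω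
  have h7 : (pm r) {ω | 2 * X < (P.filter (fun q => ω (Sum.inl q.1) = true ∧
      ω (Sum.inl q.2) = true ∧
      a0 ≤ (cl E ω (B1 : Set (V n)) q.1).ncard ∧ a0 ≤ (cl E ω (B2 : Set (V n)) q.2).ncard ∧
      ¬ (G E ω ((B1 : Set (V n)) ∪ B2)).Reachable q.1 q.2)).card} ≤
      ENNReal.ofReal (2 ^ ((B1.card + B2.card) / a0) * Real.exp (-(w * X))) :=
    (measure_mono hsub).trans hfin
  have h8 := ENNReal.toReal_mono ENNReal.ofReal_ne_top h7
  rw [ENNReal.toReal_ofReal (by positivity)] at h8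
  exact h8

end Pool.Agent.W374.PCEnt
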